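import Pool.Agent.helper92.ISO.SpecC

/-! Row iso:VVA (MP_069684_lc): circuits for unique witnesses give circuits for NP/Poly. -/

set_option autoImplicit false

open Filter Topology

namespace Pool.Agent.ISO

open Pool.Agent.PB

lemma VVA_pol (K d : ℕ) : ∃ c : ℕ, ∀ n : ℕ, K * (n + 1) ^ d ≤ n ^ c + c := by
  refine ⟨2 * d + K + K * 2 ^ d, fun n => ?_⟩
  rcases Nat.lt_or_ge n 2 with h | h
  · have h1 : (n + 1) ^ d ≤ 2 ^ d := Nat.pow_le_pow_left (by omega) d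
    have h2 : K * (n + 1) ^ d ≤ K * 2 ^ d := Nat.mul_le_mul_left K h1
    omega
  · have h1 : (n + 1) ^ d ≤ (n ^ 2) ^ d := Nat.pow_le_pow_left (by nlinarith) d
    have h2 : K ≤ n ^ K := by
      calc K ≤ 2 ^ K := Nat.lt_two_pow_self.le
        _ ≤ n ^ K := Nat.pow_le_pow_left h K
    have h3 : K * (n + 1) ^ d ≤ n ^ K * (n ^ 2) ^ d := Nat.mul_le_mul h2 h1
    have h4 : n ^ K * (n ^ 2) ^ d = n ^ (2 * d + K) := by
      rw [← pow_mul, ← pow_add]
      ring_nf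
    have h5 : n ^ (2 * d + K) ≤ n ^ (2 * d + K + K * 2 ^ d) := Nat.pow_le_pow_right (by omega) (by omega)
    omega

lemma VVA_le (c n : ℕ) : n ^ c + c ≤ (c + 1) * (n + 1) ^ c := by
  have h1 : n ^ c ≤ (n + 1) ^ c := Nat.pow_le_pow_left (by omega) c
  have h2 : 1 ≤ (n + 1) ^ c := Nat.one_le_pow _ _ (by omega)
  nlinarith

theorem VVA_proof (hCIR : CIR_stmt) (hVVL : VVL_stmt) (hIPS : IPS_stmt) : VVA_stmt := by
  classical
  intro hPU A hA
  obtain ⟨c, hA⟩ := hA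
  obtain ⟨c1, hc1⟩ := VVA_pol (c + 1 + 100 * (c + 4) ^ 3) (3 * c)
  obtain ⟨c2, hc2⟩ := hPU c1
  obtain ⟨c3, hc3⟩ := VVA_pol (64 * (c + 4) * (c2 + 2) + 1) (c + 1 + c2)
  refine ⟨c3, fun n => ?_⟩
  obtain ⟨w, hw, f, hf, hx⟩ := hA n
  obtain ⟨h, hh⟩ := hVVL n w f
  have hone : ∀ d : ℕ, 1 ≤ (n + 1) ^ d := fun d => Nat.one_le_pow _ _ (by omega)
  have hwc := VVA_le c n
  have hw3 : w + 3 ≤ (c + 4) * (n + 1) ^ c := by
    have := hone c
    nlinarith
  have hmon : (n + 1) ^ c ≤ (n + 1) ^ (3 * c) := Nat.pow_le_pow_right (by omega) (by omega)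
  have hsz : n ^ c + c + 100 * (w + 3) ^ 3 ≤ n ^ c1 + c1 := by
    refine le_trans ?_ (hc1 n)
    have e1 : (w + 3) ^ 3 ≤ (c + 4) ^ 3 * (n + 1) ^ (3 * c) := by
      calc (w + 3) ^ 3 ≤ ((c + 4) * (n + 1) ^ c) ^ 3 := Nat.pow_le_pow_left hw3 3
        _ = (c + 4) ^ 3 * (n + 1) ^ (3 * c) := by
          rw [mul_pow, ← pow_mul, mul_comm c 3]
    have e2 : (c + 1) * (n + 1) ^ c ≤ (c + 1) * (n + 1) ^ (3 * c) := Nat.mul_le_mul_left _ hmon
    nlinarith
  have hFex : ∀ l : Fin (64 * (w + 3) * (n + 1)), ∃ F : BF (n + w),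
      ∀ x y, F (Fin.append x y) = true ↔ f (Fin.append x y) = true ∧ hsat (h l) y := by
    intro l
    refine ⟨fun z => decide (f z = true ∧ hsat (h l) (fun j => z (Fin.natAdd n j))), fun x y => ?_⟩
    have e : (fun j => Fin.append x y (Fin.natAdd n j)) = y := by
      funext j
      exact Fin.append_right x y j
    rw [decide_eq_true_iff, e]
  choose F hF using hFex
  have hFs : ∀ l, Size std (F l) (n ^ c1 + c1) := fun l =>
    hCIR.2.2.1 _ _ _ _ (hIPS.2 n w (n ^ c + c) f (F l) (h l) hf (hF l)) hsz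
  have hwc1 : w ≤ n ^ c1 + c1 := by
    have : 0 ≤ 100 * (w + 3) ^ 3 := Nat.zero_le _
    omega
  have hDex : ∀ l, ∃ D : BF n, Size std D (n ^ c2 + c2) ∧ (∀ x, wit (F l) x = 1 → D x = true) ∧
      ∀ x, wit (F l) x = 0 → D x = false := fun l => hc2 n w (F l) hwc1 (hFs l)
  choose D hD using hDex
  have hiff : ∀ x, A n x = true ↔ ∃ l, D l x = true := by
    intro x
    constructor
    · intro hAx
      obtain ⟨y, hy⟩ := (hx x).mp hAx
      have h1 : 1 ≤ wit f x := by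
        unfold wit
        exact Finset.card_pos.mpr ⟨y, Finset.mem_filter.mpr ⟨Finset.mem_univ _, hy⟩⟩
      obtain ⟨l, hl⟩ := hh x h1
      refine ⟨l, (hD l).2.1 x ?_⟩
      rw [← hl]
      unfold wit
      refine congrArg Finset.card (Finset.ext fun y => ?_)
      rw [Finset.mem_filter, Finset.mem_filter, hF l x y]
    · rintro ⟨l, hl⟩
      by_contra hAx
      have h0 : wit (F l) x = 0 := by
        unfold wit
        rw [Finset.card_eq_zero, Finset.filter_eq_empty_iff]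
        intro y _ hy
        exact hAx ((hx x).mpr ⟨y, ((hF l x y).mp hy).1⟩)
      have := (hD l).2.2 x h0
      rw [this] at hl
      exact absurd hl (by decide)
  have hS := hCIR.2.2.2.2.2.2 (Fin (64 * (w + 3) * (n + 1))) n (n ^ c2 + c2) D (A n) (fun l => (hD l).1) hiff
  refine hCIR.2.2.1 _ _ _ _ hS (le_trans ?_ (hc3 n))
  rw [Fintype.card_fin]
  have e1 : n ^ c2 + c2 + 1 ≤ (c2 + 2) * (n + 1) ^ c2 := by
    have := VVA_le c2 n
    have := hone c2
    nlinarith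
  have e2 : 64 * (w + 3) * (n + 1) ≤ 64 * (c + 4) * (n + 1) ^ (c + 1) := by
    rw [pow_succ]
    have := Nat.mul_le_mul_right (n + 1) hw3
    nlinarith
  calc 64 * (w + 3) * (n + 1) * (n ^ c2 + c2 + 1) + 1
      ≤ (64 * (c + 4) * (n + 1) ^ (c + 1)) * ((c2 + 2) * (n + 1) ^ c2) + 1 :=
        Nat.add_le_add_right (Nat.mul_le_mul e2 e1) 1
    _ = 64 * (c + 4) * (c2 + 2) * (n + 1) ^ (c + 1 + c2) + 1 := by
        rw [pow_add (n + 1) (c + 1) c2]
        ring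
    _ ≤ (64 * (c + 4) * (c2 + 2) + 1) * (n + 1) ^ (c + 1 + c2) := by
        have := hone (c + 1 + c2)
        nlinarith

end Pool.Agent.ISO
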